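import Pool.Agent.Helper84.Cm.O

/-!
# Farrell–Jones groups and abstract commensurators of abelian-by-cyclic groups

`Closed C` (`Pool.Agent.Y462.SS.Base`): the class `C` of groups contains `ℤ` and is closed under groups
that embed, finite products, free products, overgroups of finite index and colimits of directed systems
with arbitrary structure maps.  `ExtClosed C` (`Pool.Agent.Q152.WP.Perm`): if `G` maps onto a group `Q` of
`C`, and the kernel and the preimages of all infinite cyclic subgroups of `Q` are in `C`, then `G` is in
`C`.  `ClosedA C` (`Q182.Cyl`): `Closed C`, the extension property for the preimages of virtually cyclic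
subgroups, and closure under acylindrical actions on trees (it is only used for (2)).  `HasSolvable C`:
all solvable groups are in `C`.  All these properties, and that the groups `GLₙ(ℚ)` and `GLₙ(𝔽ₚ(t))` are in `C`, are known for the
class of the groups which satisfy the K-theoretic Farrell–Jones conjecture with additive category
coefficients and finite wreath products (Bartels–Lück–Reich, Bartels–Farrell–Lück, Wegner, Rüping,
Knopf).

`AbsComm E` (`Pool.Agent.X201.FJ`) is the abstract commensurator of `E`: the group of the isomorphisms
between subgroups of finite index of `E`, two of them being identified if they agree on a subgroup of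
finite index.  `Comm H N` (`Pool.Agent.Q152.TA.Rank`): the subgroups `H` and `N` are commensurable.
`Est G v w` is the stabilizer of the edge from `v` to `w`.  `VSolv S`: the group `S` is virtually
solvable.  `Lamp F` (`Pool.Agent.Helper84.Cm.N`) is the lamplighter group `F ≀ ℤ`.

Outline of the proof.  (1) Let `E₀ = M ⋊ ⟨t⟩` be as in the definition of `AbelianByCyclic`.  All
`t ^ k - 1` are injective on `M`, and we localize the `ℤ[t]`-module `M` at `t` and at all `t ^ k - 1`.
Let `W` be the result.  An isomorphism `φ` between subgroups of finite index respects `M`, it maps some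
power `t ^ a` to `μ t ^ b`, and it extends to an affine automorphism of `W` whose linear part `B`
satisfies `B t ^ a = t ^ b B` (`ext_aux`, `Dat.exists_tw`).  This gives an embedding of the abstract
commensurator into the group `𝒢` of the affine automorphisms of `W` with such linear parts.  If `W` is
torsion-free, then `𝒢` is abelian-by-(a subgroup of `GLᵣ(ℚ)`).  If `W` has an element of prime order, a
counting argument with the number of generators of `W` over `ℤ[t ^ (a ^ n)]` and the rank of the
subgroups over `ℤ[t ^ (b ^ n)]` shows `|a| = |b|` (`hab`).  Then a subgroup of finite index of `𝒢` is the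
directed union of subgroups whose linear parts commute with some `t ^ a`.  A finitely generated group of
this kind acts linearly on the module `W`, which is finitely generated over a localization of
`ℤ[t ^ a]`, and the residue fields of the associated primes are number fields, or finite, or finite
extensions of `𝔽ₚ(t)`.  So it is virtually solvable-by-linear.

(2) It suffices to show that the commensurator `N` of an infinite edge stabilizer `E` is in `C`
(`MP_5d3e93_al.CyclicEdges`).  It acts on the subtree of the edges with stabilizers commensurable with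
`E`.  The kernel of `N → AbsComm(E)` acts on this subtree with finite edge stabilizers, so the preimages
of the cyclic groups act with virtually cyclic, balanced edge stabilizers.

(3) The kernel of `Γ → AbsComm(Γᵥ)` meets all vertex stabilizers in finite subgroups.
-/

set_option autoImplicit false

namespace Pool.Agent.Results.MP_5d3e93_al.AbstractCommensurators

open Pool.Agent.Helper84.Cm Pool.Agent.Q91.FJ Pool.Agent.Y462.SS Pool.Agent.Q152.WP
open Pool.Agent.X201.FJ Pool.Agent.Q152.TA
open Q182.Cyl (ClosedA Est)

/-- `E` has a finitely generated subgroup `E₀` of finite index with an abelian normal subgroup `M` such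
that `E₀ / M` is cyclic (generated by `t`), `M` has finite torsion-free rank, and no element `g ≠ 1` of
`E₀` commutes with all elements of a subgroup of finite index. -/
def AbelianByCyclic (E : Type) [Group E] : Prop :=
  ∃ (E₀ M : Subgroup E) (t : E), E₀.FiniteIndex ∧ E₀.FG ∧ M ≤ E₀ ∧ t ∈ E₀ ∧
    (∀ g ∈ E₀, ∀ m ∈ M, g * m * g⁻¹ ∈ M) ∧ (∀ x ∈ M, ∀ y ∈ M, x * y = y * x) ∧
    (∀ g ∈ E₀, ∃ m ∈ M, ∃ k : ℤ, g = m * t ^ k) ∧
    (∃ s : Finset E, (∀ x ∈ s, x ∈ M) ∧
      ∀ m ∈ M, ∃ n : ℕ, 0 < n ∧ m ^ n ∈ Subgroup.closure (s : Set E)) ∧
    (∀ g ∈ E₀, (∃ A : Subgroup E, A.FiniteIndex ∧ ∀ a ∈ A, g * a = a * g) → g = 1)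

/-- `E` has a subgroup `E₀` of finite index such that no element `g ≠ 1` of `E₀` commutes with all
elements of a subgroup of finite index. -/
def VirtuallyICC (E : Type) [Group E] : Prop :=
  ∃ E₀ : Subgroup E, E₀.FiniteIndex ∧
    ∀ g ∈ E₀, (∃ A : Subgroup E, A.FiniteIndex ∧ ∀ a ∈ A, g * a = a * g) → g = 1

/-- Let `C` be a class of groups with the closure properties `Closed C` and `ExtClosed C` which contains
the solvable groups and the groups `GLₙ(ℚ)` and `GLₙ(𝔽ₚ(t))` for all `n` and all primes `p`.

(1) If `E` has the property `AbelianByCyclic`, then for every subgroup `H` of the abstract commensurator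
of `E` and every virtually solvable normal subgroup `S` of `H` the quotient `H / S` is in `C`.

(2) Let `C` also have the closure properties `ClosedA C`.  Let `G` act without inversions on a tree, such that any two edge stabilizers are commensurable or
have a finite intersection, and each infinite edge stabilizer has the property `AbelianByCyclic`, or the
property `VirtuallyICC` and its abstract commensurator is in `C`.  Then `G` is in `C` if and only if the
stabilizers of the vertices are in `C`.

(3) Let `G` act on a tree by graph automorphisms (with or without inversions), such that the stabilizers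
of adjacent vertices are commensurable and one vertex stabilizer has the property `AbelianByCyclic`.
Then `G` is in `C`.

(4) The lamplighter groups `F ≀ ℤ` for finite abelian groups `F ≠ 0` have the property
`AbelianByCyclic`. -/
theorem result (C : ∀ (G : Type) [Group G], Prop) (hC : Closed C) (hE : ExtClosed C)
    (hS : HasSolvable C) (hQ : ∀ n : ℕ, C (Matrix.GeneralLinearGroup (Fin n) ℚ))
    (hF : ∀ (p : ℕ) [Fact p.Prime] (n : ℕ),
      C (Matrix.GeneralLinearGroup (Fin n) (RatFunc (ZMod p)))) :
    (∀ (E : Type) [Group E], AbelianByCyclic E →
      ∀ (H : Subgroup (AbsComm E)) (S : Subgroup H) [S.Normal], VSolv S → C (H ⧸ S)) ∧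
    (ClosedA C → ∀ (G V : Type) [Group G] [MulAction G V] (T : SimpleGraph V), T.IsTree →
      (∀ (g : G) (v w : V), T.Adj v w → T.Adj (g • v) (g • w)) →
      (∀ (g : G) (v w : V), T.Adj v w → ¬ (g • v = w ∧ g • w = v)) →
      (∀ v w v' w' : V, T.Adj v w → T.Adj v' w' →
        Subgroup.Commensurable (Est G v w) (Est G v' w') ∨
          Finite ↥(Est G v w ⊓ Est G v' w')) →
      (∀ v w : V, T.Adj v w → Infinite (Est G v w) → AbelianByCyclic (Est G v w) ∨
        (VirtuallyICC (Est G v w) ∧ C (AbsComm (Est G v w)))) →
      (C G ↔ ∀ v : V, C (MulAction.stabilizer G v))) ∧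
    (∀ (G V : Type) [Group G] [MulAction G V] (T : SimpleGraph V), T.IsTree →
      (∀ (g : G) (v w : V), T.Adj v w → T.Adj (g • v) (g • w)) →
      (∀ v w : V, T.Adj v w → Comm (MulAction.stabilizer G v) (MulAction.stabilizer G w)) →
      (∃ v : V, AbelianByCyclic (MulAction.stabilizer G v)) → C G) ∧
    (∀ (F : Type) [AddCommGroup F] [Finite F] [Nontrivial F], AbelianByCyclic (Lamp F)) := by
  refine ⟨fun E _ h H S _ hVS => lv_quot hC hE hS (abs_lv hC hQ hF h) H S hVS, ?_, ?_,
    fun F _ _ _ => abCyc_lamp⟩
  · intro hA G V _ _ T hT hadj hinv hcf hedge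
    refine ⟨fun h v => of_sub hC _ h, fun h => ?_⟩
    refine dich hA hE ⟨hT, hadj, hinv⟩ hcf h (fun v w hvw hinf => ?_)
    rcases hedge v w hvw hinf with h1 | ⟨h1, h2⟩
    · refine ⟨abs_mem hC hE hS hQ hF h1, ?_⟩
      obtain ⟨E₀, M, t, hfi, -, -, -, -, -, -, -, hicc⟩ := h1
      exact ⟨E₀, hfi, hicc⟩
    · exact ⟨h2, h1⟩
  · rintro Γ V _ _ T hT hadj hcomm ⟨v, hv⟩
    refine tree_mem hC hE hS hT hadj hcomm v (abs_mem hC hE hS hQ hF hv) ?_
    obtain ⟨E₀, M, t, hfi, -, -, -, -, -, -, -, hicc⟩ := hv
    exact ⟨E₀, hfi, hicc⟩

end Pool.Agent.Results.MP_5d3e93_al.AbstractCommensurators
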