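import Pool.Agent.Helper84.Cr.I
import Pool.Agent.Helper84.Cr.L

/-!
# Extensions whose kernels act on trees with commensurable stabilizers of finite rank

`FiniteRank n E` (`Pool.Agent.Helper84.Cr.I`): there is a series `E = E₀, E₁, …, Eₙ` of subgroups such
that `Eₙ` is finite and `Eᵢ₊₁` is the kernel of a homomorphism to `ℚ` from a subgroup of finite index of
`Eᵢ`.  Examples are the virtually polycyclic groups and all torsion-free solvable groups of finite rank, for
instance the solvable Baumslag–Solitar groups.

`IsAxis T h L l` (`Pool.Agent.Helper270.Tree`): `L : ℤ → V` is a line in the tree `T` and `h` translates it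
by `l > 0`.  `NonElementary N T` (`Pool.Agent.Helper84.Cr.L`): for each axis `L` of an element of `N` there
is `g` in `N` such that `L` and `g L` have only finitely many common vertices.  (So `N` preserves no
end and no line of the tree if it contains hyperbolic elements.)
`Commensurated E` (`Pool.Agent.X201.FJ`): the subgroup `E` is commensurable with all its conjugates.

`C` is any class of groups with the closure properties `ClosedE C` (`Pool.Agent.Y110.FJ`) which contains
the solvable groups, the groups `GLₘ(ℚ)`, and the groups `F ⋊ ℤ` for all free groups `F` (`FbC`).  All this
is known for the class of the groups which satisfy the K-theoretic Farrell–Jones conjecture with additive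
category coefficients and finite wreath products (Bartels–Lück–Reich, Bartels–Farrell–Lück, Wegner,
Rüping, Bestvina–Fujiwara–Wigglesworth, Brück–Kielak–Wu).

Outline of the proof.  (1) Let `E` be commensurated, finitely generated and of finite rank.  If `h` in
`E` fixes no vertex then it has an axis `L`.  Choose `g` such that `L` and `g L` have a finite intersection.
Powers of `h` and `g h g⁻¹` are in `E` and generate a free group of rank two (ping-pong with the
projections of the vertices to the lines `L` and `g L`).  But this group has subgroups of finite rank in the
sense of `FiniteRank`, with arbitrarily many independent homomorphisms to `ℚ` for a fixed length of the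
series, a contradiction.  So all elements of `E` fix vertices, and `E` fixes a vertex by Serre's lemma.
(2) For a stabilizer `N_v` and an automorphism `ψ` the group `ψ⁻¹(N_v)` is commensurated in `N`, so it fixes
a vertex `w` by (1).  Then `N_v` is contained in `ψ(N_w)`, which is commensurable with `ψ(N_v)`.
(3) By (2) the stabilizers are commensurable with their conjugates in `G`.  The abstract commensurator of a
stabilizer is solvable-by-linear over `ℚ` (`MP_e40716_gt.FiniteRankCommensurators`), hence in `C`, and
the theorem `MP_551055_al.CommensuratedKernels` applies.

Earlier results on kernels which act on trees with commensurable stabilizers of finite rank assume that the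
commensurability class of the stabilizers is invariant under conjugation by `G`:
`MP_551055_al.CommensuratedKernels` for virtually polycyclic stabilizers, and the library result
`MP_8a3537_gt.FiniteRankTreeKernels` for stabilizers with a finite series of subgroups of `G` with
torsion-free abelian factors of finite rank, each term of which is commensurable with its conjugates in `G`.
-/

set_option autoImplicit false

namespace Pool.Agent.Results.MP_5d3e93_al.InvariantStabilizers

open Pool.Agent.Helper84.Cr Pool.Agent.Q91.FJ
open Pool.Agent.X201.FJ (Commensurated)
open Pool.Agent.Helper270.Tree (TreeAct)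

/-- The group `N` acts without inversions on the tree `T` such that the stabilizers of adjacent vertices
are commensurable and one of them has finite rank. -/
structure CAction (N : Type) {V : Type} [Group N] [MulAction N V] (T : SimpleGraph V) : Prop where
  isTree : T.IsTree
  adj : ∀ (g : N) (u v : V), T.Adj u v → T.Adj (g • u) (g • v)
  noInv : ∀ (g : N) (u v : V), T.Adj u v → ¬ (g • u = v ∧ g • v = u)
  com : ∀ u v : V, T.Adj u v → (MulAction.stabilizer N u).relIndex (MulAction.stabilizer N v) ≠ 0
  rank : ∃ (v : V) (n : ℕ), FiniteRank n (MulAction.stabilizer N v)

/-- (1) Let the group `N` act without inversions on a tree such that `NonElementary N T`.  Then every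
finitely generated commensurated subgroup of finite rank of `N` fixes a vertex.

(2) Let `N` act on a tree as in `CAction` and `NonElementary`, with finitely generated vertex
stabilizers.  Then `ψ(N_v)` is commensurable with `N_v` for all automorphisms `ψ` of the group `N` and all
vertices `v`.

(3) Let `C` be a class of groups with the closure properties `ClosedE C` which contains the solvable
groups, the groups `GLₘ(ℚ)` and the groups `F ⋊ ℤ` for free groups `F`.  Let `N` be a normal subgroup of a
group `G` such that `G / N` is in `C`.  Let `N` (but not necessarily `G`) act on a tree as in `CAction` with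
torsion-free vertex stabilizers `N_v`.  Suppose that all groups `N_v` are finitely generated and
`NonElementary N T`, or that `g N_v g⁻¹` is commensurable with `N_v` for all `g` in `G` and all vertices `v`.
Then `G` is in `C`. -/
theorem result :
    (∀ (N V : Type) [Group N] [MulAction N V] (T : SimpleGraph V), TreeAct N T →
      NonElementary N T → ∀ (E : Subgroup N) (n : ℕ), Commensurated E → E.FG → FiniteRank n E →
        ∃ v : V, ∀ x ∈ E, x • v = v) ∧
    (∀ (N V : Type) [Group N] [MulAction N V] (T : SimpleGraph V), CAction N T →
      NonElementary N T → (∀ v : V, (MulAction.stabilizer N v).FG) → ∀ (ψ : N ≃* N) (v : V),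
        Subgroup.Commensurable ((MulAction.stabilizer N v).map ψ.toMonoidHom)
          (MulAction.stabilizer N v)) ∧
    (∀ (C : ∀ (G : Type) [Group G], Prop), Pool.Agent.Y110.FJ.ClosedE C → HasSolvable C →
      (∀ m : ℕ, C (Matrix.GeneralLinearGroup (Fin m) ℚ)) → Pool.Agent.R684.FP.FbC C →
      ∀ (G V : Type) [Group G] (N : Subgroup G) [N.Normal] [MulAction N V] (T : SimpleGraph V),
        C (G ⧸ N) → CAction N T →
        (∀ (v : V) (x : N), x • v = v → IsOfFinOrder x → x = 1) →
        (((∀ v : V, (MulAction.stabilizer N v).FG) ∧ NonElementary N T) ∨
          ∀ (g : G) (v : V), (((MulAction.stabilizer N v).map N.subtype).map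
            (MulAut.conj g).toMonoidHom).relIndex ((MulAction.stabilizer N v).map N.subtype) ≠ 0) →
        C G) := by
  refine ⟨fun N V _ _ T h hne E n hE hfg hfr => ?_, fun N V _ _ T h hne hfg ψ v => ?_, ?_⟩
  · obtain ⟨v, hv⟩ := elliptic' h hne E hE hfg hfr.rk
    exact ⟨v, fun x hx => hv hx⟩
  · obtain ⟨v₀, n, h0⟩ := h.rank
    have hTA : TreeAct N T := ⟨h.isTree, h.adj, h.noInv⟩
    exact class_comm hTA h.com hne v (hfg v) (h0.rk.comm ⟨stab_comm hTA h.com v₀ v,
      stab_comm hTA h.com v v₀⟩) ψ
  · intro C hC hS hQ hF G V _ N _ _ T hGN h htf hor
    obtain ⟨v₀, n, h0⟩ := h.rank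
    rcases hor with ⟨hfg, hne⟩ | hG
    · exact kernels' hC hS hQ hF N hGN T h.isTree h.adj h.noInv htf h.com hne hfg
        ⟨v₀, n, h0.rk⟩
    · exact kernels hC hS hQ hF N hGN T h.isTree h.adj h.noInv htf h.com hG ⟨v₀, n, h0.rk⟩

end Pool.Agent.Results.MP_5d3e93_al.InvariantStabilizers
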