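import Pool.Agent.Helper84.FJ.F

/-!
# Farrell–Jones groups and outer automorphism groups of virtually solvable groups

`Closed C` (`Pool.Agent.Y462.SS.Base`): the class `C` of groups contains `ℤ` and is closed under groups
that embed, finite products, free products, overgroups of finite index and colimits of directed systems
with arbitrary structure maps.  `ExtClosed C` (`Pool.Agent.Q152.WP.Perm`): if `G` maps onto a group `Q` of
`C`, and the kernel and the preimages of all infinite cyclic subgroups of `Q` are in `C`, then `G` is in
`C`.  `HasSolvable C`: all solvable groups are in `C`.  All these properties, and that the groups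
`GLₙ(ℚ)` are in `C`, are known for the class of the groups which satisfy the K-theoretic Farrell–Jones
conjecture with additive category coefficients and finite wreath products (Bartels–Lück–Reich, Bartels–
Farrell–Lück, Wegner, Rüping).

Outline of the proof.  Let `N` be a characteristic subgroup of `G`.  The automorphisms which are trivial
on `N` and on `G / N` commute, so `Aut(G)` is abelian-by-(a subgroup of `Aut(G / N) × Aut(N)`), and the
automorphism group of a torsion-free abelian group of finite rank `r` embeds into `GLᵣ(ℚ)`.  If `N` is
contained in the commutator subgroup of `M` and centralizes `M`, then the automorphisms which are trivial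
on `G / N` are trivial on `N`.  So `Aut(G)` and the holomorph of `G` have subgroups of finite index which
are solvable-by-linear.  The main point is
that the class of the groups with this property is closed under quotients by virtually solvable normal
subgroups, see `MP_e40716_gt.VirtuallySolvableQuotients`.
-/

set_option autoImplicit false

namespace Pool.Agent.Results.MP_5d3e93_al.OuterAutomorphismGroups

open Pool.Agent.Helper84.FJ Pool.Agent.Q91.FJ Pool.Agent.Y462.SS Pool.Agent.Q152.WP

/-- `A` is a torsion-free abelian group of finite rank: it is abelian, torsion-free, and there is a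
finite set such that every element has a positive power in the subgroup generated by the set. -/
def TorsionFreeFiniteRank (A : Type) [Group A] : Prop :=
  (∀ a b : A, a * b = b * a) ∧ (∀ (a : A) (n : ℕ), 0 < n → a ^ n = 1 → a = 1) ∧
    ∃ s : Finset A, ∀ a : A, ∃ n : ℕ, 0 < n ∧ a ^ n ∈ Subgroup.closure (s : Set A)

/-- The smallest class of groups which contains the torsion-free abelian groups of finite rank and the
groups with virtually solvable automorphism group (for example all finite groups and all locally cyclic
groups) and which contains a group `G` with a characteristic subgroup `N` if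
* `N` and `G / N` are in the class, or
* `G / N` is in the class and `N` is contained in the commutator subgroup of some subgroup `M` of `G`
  all of whose elements commute with the elements of `N` (for example, `N` is contained in the center and
  in the commutator subgroup of `G`; there is no condition on the structure of `N`). -/
inductive Ser : ∀ (G : Type) [Group G], Prop
  | rank (G : Type) [Group G] : TorsionFreeFiniteRank G → Ser G
  | aut (G : Type) [Group G] : VSolv (MulAut G) → Ser G
  | ext (G : Type) [Group G] (N : Subgroup G) [N.Characteristic] : Ser N → Ser (G ⧸ N) → Ser G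
  | central (G : Type) [Group G] (N : Subgroup G) [N.Characteristic] (M : Subgroup G) :
      N ≤ ⁅M, M⁆ → (∀ n ∈ N, ∀ m ∈ M, n * m = m * n) → Ser (G ⧸ N) → Ser G

/-- the group of inner automorphisms -/
def Inn (G : Type) [Group G] : Subgroup (MulAut G) := (MulAut.conj : G →* MulAut G).range

instance inn_normal (G : Type) [Group G] : (Inn G).Normal := by
  refine ⟨?_⟩
  rintro _ ⟨g, rfl⟩ u
  refine ⟨u g, ?_⟩
  ext x
  simp

variable {P : ∀ (K : Type) [Field K], Prop}

theorem ser_aut (hQ : P ℚ) (G : Type) [Group G] (hG : Ser G) : VSL P (MulAut G) ∧ VS G := by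
  induction hG with
  | rank G h => exact ⟨vsl_tfr G h hQ, VS.of_solvable (Group.isSolvable_of_comm h.1)⟩
  | aut G h =>
    refine ⟨VSL.of_vs (vs_iff.2 h), VS.ext MulAut.conj (VS.of_solvable
      (Group.isSolvable_of_comm ?_)) (vs_iff.2 h)⟩
    rintro ⟨a, ha⟩ ⟨b, hb⟩
    apply Subtype.ext
    have h3 : MulAut.conj a b = b := by
      rw [MonoidHom.mem_ker.1 ha]
      rfl
    rw [MulAut.conj_apply, mul_inv_eq_iff_eq_mul] at h3
    exact h3
  | ext G N _ _ ih1 ih2 =>
    refine ⟨vsl_step N ih2.1 ih1.1, VS.ext (QuotientGroup.mk' N) ?_ ih2.2⟩
    rw [QuotientGroup.ker_mk']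
    exact ih1.2
  | central G N M h1 h2 _ ih =>
    refine ⟨vsl_central N ih.1 M h1 h2, VS.ext (QuotientGroup.mk' N) ?_ ih.2⟩
    rw [QuotientGroup.ker_mk']
    refine VS.of_solvable (Group.isSolvable_of_comm ?_)
    rintro ⟨a, ha⟩ ⟨b, hb⟩
    exact Subtype.ext (h2 a ha b ((comm_le_self M) (h1 hb)))

/-- Let `C` be a class of groups with the closure properties `Closed C` and `ExtClosed C` which contains
the solvable groups and the groups `GLₙ(ℚ)`.  Let `G` be a group in the class `Ser`, for example a group
with a finite series of characteristic subgroups each of whose factors is finite, or torsion-free abelian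
of finite rank, or locally cyclic.

(1) For every subgroup `H` of the holomorph `G ⋊ Aut(G)` and every virtually solvable normal subgroup `S`
of `H` the quotient `H / S` is in `C`.  (2) The outer automorphism group `Out(G)` is in `C`. -/
theorem result (C : ∀ (G : Type) [Group G], Prop) (hC : Closed C) (hE : ExtClosed C)
    (hS : HasSolvable C) (hQ : ∀ n : ℕ, C (Matrix.GeneralLinearGroup (Fin n) ℚ))
    (G : Type) [Group G] (hG : Ser G) :
    (∀ (H : Subgroup (G ⋊[MonoidHom.id (MulAut G)] MulAut G)) (S : Subgroup H) [S.Normal],
      VSolv S → C (H ⧸ S)) ∧
    C (MulAut G ⧸ Inn G) := by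
  obtain ⟨h1, h2⟩ := ser_aut (P := fun K _ => ∀ n : ℕ, C (Matrix.GeneralLinearGroup (Fin n) K))
    hQ G hG
  have hGL : HasLinear (fun K _ => ∀ n : ℕ, C (Matrix.GeneralLinearGroup (Fin n) K)) C :=
    fun K _ h => h
  refine ⟨fun H S _ hS' => ?_, ?_⟩
  · have h3 : VSL (fun K _ => ∀ n : ℕ, C (Matrix.GeneralLinearGroup (Fin n) K))
        (G ⋊[MonoidHom.id (MulAut G)] MulAut G) := by
      refine VSL.ext SemidirectProduct.rightHom ?_ h1
      have h4 : (SemidirectProduct.rightHom :
          G ⋊[MonoidHom.id (MulAut G)] MulAut G →* MulAut G).ker =
          (SemidirectProduct.inl : G →* G ⋊[MonoidHom.id (MulAut G)] MulAut G).range :=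
        SemidirectProduct.range_inl_eq_ker_rightHom.symm
      rw [h4]
      exact VS.of_surjective _ (MonoidHom.rangeRestrict_surjective _) h2
    refine (VSL.quot (QuotientGroup.mk' S) (QuotientGroup.mk'_surjective S) ?_
      (VSL.of_injective H.subtype H.subtype_injective h3)).mem hC hE hS hGL
    rw [QuotientGroup.ker_mk']
    exact vs_iff.2 hS'
  · refine (VSL.quot (QuotientGroup.mk' (Inn G)) (QuotientGroup.mk'_surjective _) ?_ h1).mem
      hC hE hS hGL
    rw [QuotientGroup.ker_mk']
    exact VS.of_surjective _ (MonoidHom.rangeRestrict_surjective _) h2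

end Pool.Agent.Results.MP_5d3e93_al.OuterAutomorphismGroups
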