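import Pool.Agent.Helper98.RG.Main

/-!
# Farrell–Jones and random presentations: a zero-one law

Let `C` be a class of groups which is closed under groups that embed and under colimits of directed systems
(`SubColim`), for example the class of the groups which satisfy the K-theoretic Farrell–Jones conjecture with
coefficients in additive categories. `Grp P` is the group with `n` generators and `m` relators
`P 0, ..., P (m - 1)`, words of length three in the letters `x i` and `(x i)⁻¹`. There are `(2 n) ^ (3 m)` such
presentations; `exceptions C n m` is the number of those whose group is not in `C`.

We show: if there is a group, of any kind, which is not in `C`, then there is a constant `k` such that for all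
`n, m ≥ k` the proportion of the exceptions is at least `n ^ (-k) exp (-k m / n)`. If `m = O(n log n)` this is a
negative power of `n`. So `C` contains all groups if and only if the probability that the group of a random
presentation is not in `C` is smaller than every power of `1 / n`, for arbitrarily large `n`.

Proof: there is a finitely presented group `G₀` outside of `C`. It is a retract of a group with a presentation
with `α` generators and `β` relators of length three, which are satisfied by the suffixes of the relators of `G₀`.
If the first `β` relators are these, and the other relators do not contain the first `α` generators, then `G₀`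
is a retract of the group, which is not in `C`.
-/

set_option autoImplicit false

open Filter

namespace Pool.Agent.Results.MP_5d3e93_al.RandomPresentations

open Pool.Agent.Helper98.RG

/-- **The Farrell–Jones conjecture and random presentations.** Let the class `C` of groups be closed under groups
that embed and under directed colimits.
(1) If some group is not in `C`, then there is a `k` such that for all `n, m ≥ k` the proportion of the
presentations with `n` generators and `m` relators of length three whose group is not in `C` is at least
`n ^ (-k) exp (-k m / n)`.
(2) Let `m n → ∞` and `m n ≤ c n log n` for large `n`. All groups are in `C` if and only if for each `K` there are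
arbitrarily large `n` for which this proportion is at most `n ^ (-K)` for `m = m n`. -/
theorem result (C : ∀ (G : Type) [Group G], Prop) (hC : SubColim C) :
    ((∃ (G : Type) (_ : Group G), ¬ C G) → ∃ k : ℕ, ∀ n m : ℕ, k ≤ n → k ≤ m →
      Real.exp (-(k * m / n)) / (n : ℝ) ^ k ≤ exceptions C n m / (2 * n : ℝ) ^ (3 * m)) ∧
    ∀ (m : ℕ → ℕ) (c : ℝ), Tendsto m atTop atTop →
      (∀ᶠ n : ℕ in atTop, (m n : ℝ) ≤ c * n * Real.log n) →
      ((∀ (G : Type) [Group G], C G) ↔ ∀ K : ℕ, ∃ᶠ n : ℕ in atTop,
        exceptions C n (m n) / (2 * n : ℝ) ^ (3 * m n) ≤ 1 / (n : ℝ) ^ K) := by
  refine ⟨?_, fun m c hm hmc => ⟨fun h K => ?_, fun h => ?_⟩⟩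
  · rintro ⟨G, _, hG⟩
    have h2 : ¬ ∀ (a : ℕ) (R : Set (FreeGroup (Fin a))), R.Finite → C (PresentedGroup R) :=
      fun h => hG (all_of_fp hC h G)
    simp only [not_forall] at h2
    obtain ⟨a, R, hR, hnot⟩ := h2
    exact lower hC.retracts hR hnot
  · refine Eventually.frequently (Eventually.of_forall fun n => ?_)
    rw [exceptions_eq_zero h]
    simp only [Nat.cast_zero, zero_div]
    positivity
  · exact all_of_fp hC (fp_iff hC.retracts m c hm hmc h)

end Pool.Agent.Results.MP_5d3e93_al.RandomPresentations
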